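import Pool.Agent.Lib.H66I.SecantPlane

/-!
# MP_8c9d81_co: the spectrum of the `k`-avoiding point sets of `PG(2, q)` is complete

For `k` in the middle range every size occurs. The construction is in
`Pool/Agent/Lib/Helper20/SecantAvoid.lean`; the definitions of points, lines, `k`-avoiding sets and
of the spectrum are in `Pool/Agent/Lib/H66I/SecantPlane.lean`.
-/

set_option autoImplicit false

namespace Pool.Agent.Results.MP_8c9d81_co.FullSpectrum

open Pool.Agent.Lib.H66I.SecantPlane

universe u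

theorem result :
    (∀ (F : Type u) [Field F] [Finite F] (k : ℕ),
      36 * (Nat.sqrt (Nat.card F) + 1) + 6 ≤ k →
      k + 36 * (Nat.sqrt (Nat.card F) + 1) + 5 ≤ Nat.card F →
      spectrum F k = Set.Icc 0 (Nat.card F ^ 2 + Nat.card F + 1)) ∧
    (∀ q : ℕ, IsPrimePow q → ∀ k : ℕ,
      37 * Real.sqrt (q : ℝ) < (k : ℝ) → (k : ℝ) < (q : ℝ) + 1 - 37 * Real.sqrt (q : ℝ) →
      ∀ (F : Type u) [Field F], Nat.card F = q → spectrum F k = Set.Icc 0 (q ^ 2 + q + 1)) := by
  refine ⟨fun F _ _ k h1 h2 => spectrum_eq F k h1 h2, ?_⟩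
  intro q hq k h1 h2 F _ hF
  have hfin : Finite F := Nat.finite_of_card_ne_zero (by rw [hF]; exact hq.ne_zero)
  subst hF
  exact spectrum_eq_real F k h1 h2

end Pool.Agent.Results.MP_8c9d81_co.FullSpectrum
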